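import Pool.Agent.H68.BB.Def

/-! # BB.Red : reduction of points is a homomorphism

`V` a valuation subring of `F`, `φ : V → κ` a LOCAL homomorphism to a field (`φ a ≠ 0` iff `a` is a unit of `V`), `l ∈ V`, `φ l = l'`,
`2 ≠ 0`, `l' ≠ 0, 1` in `κ`.  `Rd V φ x a` : `x ∈ V` and `φ x = a`. -/

namespace H68.BB

open WeierstrassCurve

variable {F κ : Type} [Field F] [Field κ] (V : ValuationSubring F) (φ : V →+* κ) {l : F} {l' : κ}

/-- `x` is integral and reduces to `a` -/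
def Rd (x : F) (a : κ) : Prop := ∃ h : x ∈ V, φ ⟨x, h⟩ = a

namespace Rd

variable {V φ} {x y : F} {a b : κ}

theorem mem (h : Rd V φ x a) : x ∈ V := h.choose

theorem of_mem (h : x ∈ V) : Rd V φ x (φ ⟨x, h⟩) := ⟨h, rfl⟩

theorem unique (h : Rd V φ x a) (h' : Rd V φ x b) : a = b := by
  obtain ⟨_, h⟩ := h
  obtain ⟨_, h'⟩ := h'
  rw [← h, ← h']

theorem add (h : Rd V φ x a) (h' : Rd V φ y b) : Rd V φ (x + y) (a + b) := by
  obtain ⟨hx, rfl⟩ := h
  obtain ⟨hy, rfl⟩ := h'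
  refine ⟨V.add_mem _ _ hx hy, ?_⟩
  rw [← map_add]; rfl

theorem mul (h : Rd V φ x a) (h' : Rd V φ y b) : Rd V φ (x * y) (a * b) := by
  obtain ⟨hx, rfl⟩ := h
  obtain ⟨hy, rfl⟩ := h'
  refine ⟨V.mul_mem _ _ hx hy, ?_⟩
  rw [← map_mul]; rfl

theorem neg (h : Rd V φ x a) : Rd V φ (-x) (-a) := by
  obtain ⟨hx, rfl⟩ := h
  refine ⟨V.neg_mem _ hx, ?_⟩
  rw [← map_neg]; rfl

theorem sub (h : Rd V φ x a) (h' : Rd V φ y b) : Rd V φ (x - y) (a - b) := by
  rw [sub_eq_add_neg, sub_eq_add_neg]; exact h.add h'.neg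

theorem one : Rd V φ 1 1 := ⟨V.one_mem, by rw [← map_one φ]; rfl⟩

theorem zero : Rd V φ 0 0 := ⟨V.zero_mem, by rw [← map_zero φ]; rfl⟩

theorem pow (h : Rd V φ x a) (n : ℕ) : Rd V φ (x ^ n) (a ^ n) := by
  induction n with
  | zero => rw [pow_zero, pow_zero]; exact one
  | succ n ih => rw [pow_succ, pow_succ]; exact ih.mul h

theorem two : Rd V φ 2 2 := by
  have := (one (V := V) (φ := φ)).add one
  norm_num at this
  exact this

theorem three : Rd V φ 3 3 := by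
  have := (two (V := V) (φ := φ)).add one
  norm_num at this
  exact this

theorem inv [IsLocalHom φ] (h : Rd V φ x a) (ha : a ≠ 0) : Rd V φ x⁻¹ a⁻¹ := by
  obtain ⟨hx, rfl⟩ := h
  have hu : IsUnit (⟨x, hx⟩ : V) := (isUnit_map_iff φ _).1 (isUnit_iff_ne_zero.2 ha)
  obtain ⟨u, hu⟩ := hu
  have h1 : ((u⁻¹ : Vˣ) : V) * (⟨x, hx⟩ : V) = 1 := by rw [← hu]; simp
  have h2 : (((u⁻¹ : Vˣ) : V) : F) * x = 1 := congrArg (fun z : V => (z : F)) h1
  have hx0 : x ≠ 0 := by
    intro h; rw [h, mul_zero] at h2; exact zero_ne_one h2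
  have h3 : (((u⁻¹ : Vˣ) : V) : F) = x⁻¹ := eq_inv_of_mul_eq_one_left h2
  refine ⟨h3 ▸ ((u⁻¹ : Vˣ) : V).2, ?_⟩
  have h4 : φ ⟨x⁻¹, h3 ▸ ((u⁻¹ : Vˣ) : V).2⟩ * φ ⟨x, hx⟩ = 1 := by
    rw [← map_mul, ← map_one φ]
    congr 1
    apply Subtype.ext
    show x⁻¹ * x = 1
    exact inv_mul_cancel₀ hx0
  exact eq_inv_of_mul_eq_one_left h4

theorem div [IsLocalHom φ] (h : Rd V φ x a) (h' : Rd V φ y b) (hb : b ≠ 0) :
    Rd V φ (x / y) (a / b) := by
  rw [div_eq_mul_inv, div_eq_mul_inv]; exact h.mul (h'.inv hb)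

theorem ne_zero (h : Rd V φ x a) (ha : a ≠ 0) : x ≠ 0 := by
  rintro rfl
  exact ha (h.unique zero)

/-- the inverse of a nonintegral element reduces to zero -/
theorem inv_zero [IsLocalHom φ] (hx : x ∉ V) : Rd V φ x⁻¹ 0 := by
  have h1 : x⁻¹ ∈ V := (V.mem_or_inv_mem x).resolve_left hx
  refine ⟨h1, ?_⟩
  by_contra hne
  have h2 : Rd V φ (x⁻¹)⁻¹ (φ ⟨x⁻¹, h1⟩)⁻¹ := (of_mem h1).inv hne
  rw [inv_inv] at h2
  exact hx h2.mem

/-- `x` is not integral if its inverse reduces to zero -/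
theorem not_mem (h : Rd V φ x⁻¹ 0) (hx : x ≠ 0) : x ∉ V := by
  intro h1
  have h2 := h.mul (of_mem (φ := φ) h1)
  rw [inv_mul_cancel₀ hx, zero_mul] at h2
  exact one_ne_zero (one.unique h2)

end Rd

theorem red_zero : red V φ l l' 0 = 0 := by
  unfold red
  rw [dif_neg]
  intro h
  exact h.1 rfl

theorem red_eq_zero {P : Pt F l} (hX : P.X ∉ V) : red V φ l l' P = 0 := by
  unfold red
  rw [dif_neg]
  rintro ⟨_, h, _⟩
  exact hX h

theorem Y_mem {P : Pt F l} (hl : l ∈ V) (hX : P.X ∈ V) : P.Y ∈ V := by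
  have h2 : P.Y ^ 2 ∈ V := by
    rw [Y_sq]
    exact V.mul_mem _ _ (V.mul_mem _ _ hX (sub_mem hX V.one_mem)) (sub_mem hX hl)
  rcases V.mem_or_inv_mem P.Y with h | h
  · exact h
  · by_cases h0 : P.Y = 0
    · rw [h0]; exact V.zero_mem
    · have : P.Y = P.Y ^ 2 * P.Y⁻¹ := by field_simp
      rw [this]
      exact V.mul_mem _ _ h2 h

/-- a point with integral `x` reduces to the affine point with the reduced coordinates -/
theorem red_of_mem (hl' : Good l') (hll : ∃ h : l ∈ V, φ ⟨l, h⟩ = l') {P : Pt F l} (hP : P ≠ 0)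
    (hX : P.X ∈ V) : ∃ hY : P.Y ∈ V, red V φ l l' P ≠ 0 ∧ (red V φ l l' P).X = φ ⟨P.X, hX⟩ ∧
      (red V φ l l' P).Y = φ ⟨P.Y, hY⟩ := by
  obtain ⟨hl, hll⟩ := hll
  have hY := Y_mem V hl hX
  have hns : (Leg l').toAffine.Nonsingular (φ ⟨P.X, hX⟩) (φ ⟨P.Y, hY⟩) := by
    rw [ns_iff hl']
    have h1 : Rd V φ (P.Y ^ 2) (φ ⟨P.Y, hY⟩ ^ 2) := (Rd.of_mem hY).pow 2
    have h2 : Rd V φ (P.X * (P.X - 1) * (P.X - l))
        (φ ⟨P.X, hX⟩ * (φ ⟨P.X, hX⟩ - 1) * (φ ⟨P.X, hX⟩ - l')) :=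
      ((Rd.of_mem hX).mul ((Rd.of_mem hX).sub Rd.one)).mul ((Rd.of_mem hX).sub ⟨hl, hll⟩)
    rw [← Y_sq] at h2
    exact h1.unique h2
  refine ⟨hY, ?_⟩
  unfold red
  rw [dif_pos ⟨hP, hX, hY, hns⟩]
  exact ⟨mk_ne_zero _, rfl, rfl⟩

theorem red_rd (hl' : Good l') (hll : Rd V φ l l') {P : Pt F l} (hP : P ≠ 0)
    (hX : P.X ∈ V) : red V φ l l' P ≠ 0 ∧ Rd V φ P.X (red V φ l l' P).X ∧
      Rd V φ P.Y (red V φ l l' P).Y := by
  obtain ⟨hY, h1, h2, h3⟩ := red_of_mem V φ hl' hll hP hX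
  exact ⟨h1, ⟨hX, h2.symm⟩, ⟨hY, h3.symm⟩⟩

theorem red_neg (hl' : Good l') (hll : ∃ h : l ∈ V, φ ⟨l, h⟩ = l') (P : Pt F l) :
    red V φ l l' (-P) = -red V φ l l' P := by
  by_cases hP : P = 0
  · rw [hP, neg_zero, red_zero, neg_zero]
  by_cases hX : P.X ∈ V
  · obtain ⟨h1, h2, h3⟩ := red_rd V φ hl' hll hP hX
    obtain ⟨h1', h2', h3'⟩ := red_rd V φ hl' hll (neg_ne_zero.2 hP) (by rw [X_neg]; exact hX)
    refine ext_XY h1' (neg_ne_zero.2 h1) ?_ ?_
    · rw [X_neg] at h2' ⊢; exact h2'.unique h2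
    · rw [Y_neg] at h3' ⊢; exact h3'.unique h3.neg
  · rw [red_eq_zero V φ hX, red_eq_zero V φ (by rw [X_neg]; exact hX), neg_zero]

section add
variable {V φ} [IsLocalHom φ]

/-- `f'(a) ≠ 0` at a root -/
theorem deriv_ne {a : κ} (hl' : Good l') (ha : a * (a - 1) * (a - l') = 0) :
    3 * a ^ 2 - 2 * (1 + l') * a + l' ≠ 0 := by
  intro h
  rcases mul_eq_zero.1 ha with h1 | h1
  · rcases mul_eq_zero.1 h1 with h1 | h1
    · rw [h1] at h; exact hl'.zero (by linear_combination h)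
    · have : a = 1 := by linear_combination h1
      rw [this] at h; exact hl'.one (by linear_combination -h)
  · have : a = l' := by linear_combination h1
    rw [this] at h
    have h5 : l' * (l' - 1) = 0 := by linear_combination h
    rcases mul_eq_zero.1 h5 with h5 | h5
    · exact hl'.zero h5
    · exact hl'.one (by linear_combination h5)

theorem two_mul_ne (hl' : Good l') {a : κ} (ha : a ≠ 0) : 2 * a ≠ 0 := mul_ne_zero hl'.two ha

/-- the two secant formulas -/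
theorem slope_facts {P Q : Pt F l} {s v : F} (h1 : P.Y = s * P.X + v) (h2 : Q.Y = s * Q.X + v) :
    s * (P.X - Q.X) = P.Y - Q.Y := by linear_combination h2 - h1

theorem slope_facts2 {P Q : Pt F l} {s v : F} (h1 : P.Y = s * P.X + v) (h2 : Q.Y = s * Q.X + v)
    (hX : P.X ≠ Q.X) : s * (P.Y + Q.Y) =
      P.X ^ 2 + P.X * Q.X + Q.X ^ 2 - (1 + l) * (P.X + Q.X) + l := by
  have h3 := slope_facts h1 h2
  have h4 : (P.X - Q.X) ≠ 0 := sub_ne_zero.2 hX
  apply mul_left_cancel₀ h4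
  have h5 := Y_sq P
  have h6 := Y_sq Q
  linear_combination (P.Y + Q.Y) * h3 + h5 - h6

/-- Case 1: both integral, the reductions are not opposite -/
theorem red_add_case1 (hl' : Good l') (hll : Rd V φ l l') {P Q : Pt F l} (hP : P ≠ 0) (hQ : Q ≠ 0)
    (hX : P.X ∈ V) (hX' : Q.X ∈ V) (hne : red V φ l l' P + red V φ l l' Q ≠ 0) :
    P + Q ≠ 0 ∧ (P + Q).X ∈ V ∧ red V φ l l' (P + Q) = red V φ l l' P + red V φ l l' Q := by
  obtain ⟨p1, p2, p3⟩ := red_rd V φ hl' hll hP hX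
  obtain ⟨q1, q2, q3⟩ := red_rd V φ hl' hll hQ hX'
  set A := red V φ l l' P with hA
  set B := red V φ l l' Q with hB
  have hPQ : P + Q ≠ 0 := by
    intro h
    apply hne
    have : Q = -P := eq_neg_of_add_eq_zero_right h
    rw [hB, this, red_neg V φ hl' hll, ← hA, add_neg_cancel]
  obtain ⟨s, v, h1, h2, h3, h4, h5, h6, h7⟩ := add_line hP hQ hPQ
  obtain ⟨s', v', h1', h2', h3', h4', h5', h6', h7'⟩ := add_line p1 q1 hne
  have hs : Rd V φ s s' := by
    by_cases hX : A.X = B.X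
    · obtain ⟨h8, h9, h10⟩ := h7' hX
      have hAY : A.Y + B.Y ≠ 0 := by rw [← h8]; intro h; exact h10 (by linear_combination h)
      have hs' : s' = (3 * A.X ^ 2 - 2 * (1 + l') * A.X + l') / (2 * A.Y) := by
        rw [eq_div_iff h10, h9]
      by_cases hXX : P.X = Q.X
      · obtain ⟨h11, h12, h13⟩ := h7 hXX
        have hs : s = (3 * P.X ^ 2 - 2 * (1 + l) * P.X + l) / (2 * P.Y) := by
          rw [eq_div_iff h13, h12]
        rw [hs, hs']
        exact (((Rd.three.mul (p2.pow 2)).sub ((Rd.two.mul (Rd.one.add hll)).mul p2)).add hll).div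
          (Rd.two.mul p3) h10
      · have h14 := slope_facts2 h1 h2 hXX
        have h15 : Rd V φ (P.Y + Q.Y) (A.Y + B.Y) := p3.add q3
        have hs : s = (P.X ^ 2 + P.X * Q.X + Q.X ^ 2 - (1 + l) * (P.X + Q.X) + l) /
            (P.Y + Q.Y) := by
          rw [eq_div_iff (h15.ne_zero hAY), h14]
        have h16 : Rd V φ s ((A.X ^ 2 + A.X * B.X + B.X ^ 2 - (1 + l') * (A.X + B.X) + l') /
            (A.Y + B.Y)) := by
          rw [hs]
          exact (((((p2.pow 2).add (p2.mul q2)).add (q2.pow 2)).sub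
            ((Rd.one.add hll).mul (p2.add q2))).add hll).div h15 hAY
        have h17 : (A.X ^ 2 + A.X * B.X + B.X ^ 2 - (1 + l') * (A.X + B.X) + l') / (A.Y + B.Y) = s' := by
          rw [hs', ← hX, ← h8]
          congr 1 <;> ring
        rw [h17] at h16
        exact h16
    · have h8 : A.X - B.X ≠ 0 := sub_ne_zero.2 hX
      have h9 : Rd V φ (P.X - Q.X) (A.X - B.X) := p2.sub q2
      have hs : s = (P.Y - Q.Y) / (P.X - Q.X) := by
        rw [eq_div_iff (h9.ne_zero h8)]; exact slope_facts h1 h2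
      have hs' : s' = (A.Y - B.Y) / (A.X - B.X) := by
        rw [eq_div_iff h8]; exact slope_facts h1' h2'
      rw [hs, hs']
      exact (p3.sub q3).div h9 h8
  have hv : Rd V φ v v' := by
    have e1 : v = P.Y - s * P.X := by linear_combination -h1
    have e2 : v' = A.Y - s' * A.X := by linear_combination -h1'
    rw [e1, e2]
    exact p3.sub (hs.mul p2)
  have hX3 : Rd V φ (P + Q).X (A + B).X := by
    have e1 : (P + Q).X = s ^ 2 + (1 + l) - P.X - Q.X := by linear_combination h4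
    have e2 : (A + B).X = s' ^ 2 + (1 + l') - A.X - B.X := by linear_combination h4'
    rw [e1, e2]
    exact (((hs.pow 2).add (Rd.one.add hll)).sub p2).sub q2
  refine ⟨hPQ, hX3.mem, ?_⟩
  obtain ⟨r1, r2, r3⟩ := red_rd V φ hl' hll hPQ hX3.mem
  refine ext_XY r1 hne (r2.unique hX3) (r3.unique ?_)
  rw [h3, h3']
  exact ((hs.mul hX3).add hv).neg

/-- Case 2: both integral, the reductions are opposite -/
theorem red_add_case2 (hl' : Good l') (hll : Rd V φ l l') {P Q : Pt F l} (hP : P ≠ 0) (hQ : Q ≠ 0)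
    (hX : P.X ∈ V) (hX' : Q.X ∈ V) (hne : red V φ l l' P + red V φ l l' Q = 0) :
    red V φ l l' (P + Q) = 0 := by
  by_cases hPQ : P + Q = 0
  · rw [hPQ, red_zero]
  obtain ⟨p1, p2, p3⟩ := red_rd V φ hl' hll hP hX
  obtain ⟨q1, q2, q3⟩ := red_rd V φ hl' hll hQ hX'
  set A := red V φ l l' P with hA
  set B := red V φ l l' Q with hB
  have hBA : B = -A := eq_neg_of_add_eq_zero_right hne
  have hBX : B.X = A.X := by rw [hBA, X_neg]
  have hBY : B.Y = -A.Y := by rw [hBA, Y_neg]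
  rw [hBX] at q2
  rw [hBY] at q3
  obtain ⟨s, v, h1, h2, h3, h4, h5, h6, h7⟩ := add_line hP hQ hPQ
  -- `s` is not integral
  have hs : Rd V φ s⁻¹ 0 ∧ s ≠ 0 := by
    by_cases hXX : P.X = Q.X
    · obtain ⟨h8, h9, h10⟩ := h7 hXX
      have hAY : A.Y = 0 := by
        rw [← h8] at q3
        have := p3.unique q3
        have h11 : 2 * A.Y = 0 := by linear_combination this
        exact (mul_eq_zero.1 h11).resolve_left hl'.two
      have hd : 3 * A.X ^ 2 - 2 * (1 + l') * A.X + l' ≠ 0 := by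
        apply deriv_ne hl'
        rw [← Y_sq, hAY]; ring
      have h12 : Rd V φ (3 * P.X ^ 2 - 2 * (1 + l) * P.X + l)
          (3 * A.X ^ 2 - 2 * (1 + l') * A.X + l') :=
        ((Rd.three.mul (p2.pow 2)).sub ((Rd.two.mul (Rd.one.add hll)).mul p2)).add hll
      have hs0 : s ≠ 0 := by
        rintro rfl
        rw [zero_mul] at h9
        exact h12.ne_zero hd h9.symm
      have h13 : s⁻¹ = (2 * P.Y) / (3 * P.X ^ 2 - 2 * (1 + l) * P.X + l) := by
        rw [← h9, ← div_div, div_right_comm, div_self h10, one_div]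
      refine ⟨?_, hs0⟩
      rw [h13]
      have := (Rd.two.mul p3).div h12 hd
      rw [hAY, mul_zero, zero_div] at this
      exact this
    · by_cases hAY : A.Y = 0
      · have hd : 3 * A.X ^ 2 - 2 * (1 + l') * A.X + l' ≠ 0 := by
          apply deriv_ne hl'
          rw [← Y_sq, hAY]; ring
        have h14 := slope_facts2 h1 h2 hXX
        have h12 : Rd V φ (P.X ^ 2 + P.X * Q.X + Q.X ^ 2 - (1 + l) * (P.X + Q.X) + l)
            (3 * A.X ^ 2 - 2 * (1 + l') * A.X + l') := by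
          have := ((((p2.pow 2).add (p2.mul q2)).add (q2.pow 2)).sub
            ((Rd.one.add hll).mul (p2.add q2))).add hll
          convert this using 1
          ring
        have hs0 : s ≠ 0 := by
          rintro rfl
          rw [zero_mul] at h14
          exact h12.ne_zero hd h14.symm
        refine ⟨?_, hs0⟩
        have h13 : s⁻¹ = (P.Y + Q.Y) /
            (P.X ^ 2 + P.X * Q.X + Q.X ^ 2 - (1 + l) * (P.X + Q.X) + l) := by
          rw [← h14]
          have : P.Y + Q.Y ≠ 0 := by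
            intro h
            rw [h, mul_zero] at h14
            exact h12.ne_zero hd h14.symm
          field_simp
        rw [h13]
        have := (p3.add q3).div h12 hd
        rw [hAY, neg_zero, add_zero, zero_div] at this
        exact this
      · have h14 := slope_facts h1 h2
        have h15 : Rd V φ (P.Y - Q.Y) (2 * A.Y) := by
          have := p3.sub q3
          convert this using 1
          ring
        have h16 : (2 * A.Y) ≠ 0 := two_mul_ne hl' hAY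
        have hs0 : s ≠ 0 := by
          rintro rfl
          rw [zero_mul] at h14
          exact h15.ne_zero h16 h14.symm
        refine ⟨?_, hs0⟩
        have h13 : s⁻¹ = (P.X - Q.X) / (P.Y - Q.Y) := by
          rw [← h14]
          have : P.X - Q.X ≠ 0 := sub_ne_zero.2 hXX
          field_simp
        rw [h13]
        have := (p2.sub q2).div h15 h16
        rw [sub_self, zero_div] at this
        exact this
  apply red_eq_zero
  intro hX3
  -- then `s^2` is integral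
  have h8 : s ^ 2 ∈ V := by
    have : s ^ 2 = P.X + Q.X + (P + Q).X - (1 + l) := by linear_combination -h4
    rw [this]
    exact sub_mem (V.add_mem _ _ (V.add_mem _ _ hX hX') hX3) (V.add_mem _ _ V.one_mem hll.mem)
  have h9 : Rd V φ (s ^ 2)⁻¹ 0 := by
    have := hs.1.pow 2
    rw [inv_pow, zero_pow two_ne_zero] at this
    exact this
  exact h9.not_mem (pow_ne_zero 2 hs.2) h8

/-- an integral point plus a nonintegral point is integral -/
theorem mem_of_mem_not_mem (hl' : Good l') (hll : Rd V φ l l') {P Q : Pt F l} (hP : P ≠ 0)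
    (hQ : Q ≠ 0) (hX : P.X ∈ V) (hX' : Q.X ∉ V) : P + Q ≠ 0 ∧ (P + Q).X ∈ V := by
  have hXX : P.X ≠ Q.X := fun h => hX' (h ▸ hX)
  have hPQ : P + Q ≠ 0 := add_ne_zero_of_X hXX
  refine ⟨hPQ, ?_⟩
  obtain ⟨s, v, h1, h2, h3, h4, h5, h6, h7⟩ := add_line hP hQ hPQ
  have hY := Y_mem V hll.mem hX
  have hu := Rd.inv_zero (φ := φ) hX'
  have hQ0 : Q.X ≠ 0 := fun h => hX' (h ▸ V.zero_mem)
  set u := (Q.X)⁻¹ with hu'
  -- `w = Y / X^2`
  have hw : (Q.Y * u ^ 2) ∈ V := by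
    have h8 : (Q.Y * u ^ 2) ^ 2 = u * (1 - u) * (1 - l * u) := by
      have : Q.X = u⁻¹ := by rw [hu', inv_inv]
      have hu0 : u ≠ 0 := inv_ne_zero hQ0
      rw [mul_pow, Y_sq, this]
      field_simp
    have h9 : (Q.Y * u ^ 2) ^ 2 ∈ V := by
      rw [h8]
      exact V.mul_mem _ _ (V.mul_mem _ _ hu.mem (sub_mem V.one_mem hu.mem))
        (sub_mem V.one_mem (V.mul_mem _ _ hll.mem hu.mem))
    rcases V.mem_or_inv_mem (Q.Y * u ^ 2) with h | h
    · exact h
    · by_cases h0 : Q.Y * u ^ 2 = 0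
      · rw [h0]; exact V.zero_mem
      · have : Q.Y * u ^ 2 = (Q.Y * u ^ 2) ^ 2 * (Q.Y * u ^ 2)⁻¹ := by
          field_simp
        rw [this]
        exact V.mul_mem _ _ h9 h
  -- the formula
  have hd : Rd V φ (1 - P.X * u) 1 := by
    have := Rd.one.sub ((Rd.of_mem (φ := φ) hX).mul hu)
    rw [mul_zero, sub_zero] at this
    exact this
  have hd0 : 1 - P.X * u ≠ 0 := hd.ne_zero one_ne_zero
  have hform : ((P + Q).X - P.X) * (1 - P.X * u) ^ 2 =
      -(2 * P.Y * (Q.Y * u ^ 2)) + (3 * P.X ^ 2 - 2 * (1 + l) * P.X + l) * u +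
        (l * P.X - P.X ^ 3) * u ^ 2 := by
    have e0 : Q.X * u = 1 := mul_inv_cancel₀ hQ0
    have e1 := slope_facts h1 h2
    have e2 : (P + Q).X = s ^ 2 + (1 + l) - P.X - Q.X := by linear_combination h4
    have e3 := Y_sq P
    have e4 := Y_sq Q
    have e5 : ((P + Q).X - P.X) * (Q.X - P.X) ^ 2 = -(2 * P.Y * Q.Y) +
        (3 * P.X ^ 2 - 2 * (1 + l) * P.X + l) * Q.X + (l * P.X - P.X ^ 3) := by
      rw [e2]
      linear_combination (s * (P.X - Q.X) + (P.Y - Q.Y)) * e1 + e3 + e4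
    have e6 : 1 - P.X * u = (Q.X - P.X) * u := by rw [sub_mul, e0]
    rw [e6]
    calc ((P + Q).X - P.X) * ((Q.X - P.X) * u) ^ 2
        = (((P + Q).X - P.X) * (Q.X - P.X) ^ 2) * u ^ 2 := by ring
      _ = _ := by
        rw [e5]
        linear_combination (3 * P.X ^ 2 - 2 * (1 + l) * P.X + l) * u * e0
  have hmem : -(2 * P.Y * (Q.Y * u ^ 2)) + (3 * P.X ^ 2 - 2 * (1 + l) * P.X + l) * u +
        (l * P.X - P.X ^ 3) * u ^ 2 ∈ V := by
    have a2 : (2 : F) ∈ V := (Rd.two (V := V) (φ := φ)).mem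
    have a3 : (3 : F) ∈ V := (Rd.three (V := V) (φ := φ)).mem
    have al := hll.mem
    have au := hu.mem
    refine V.add_mem _ _ (V.add_mem _ _ (V.neg_mem _ ?_) (V.mul_mem _ _ ?_ au))
      (V.mul_mem _ _ (sub_mem (V.mul_mem _ _ al hX) (pow_mem hX 3)) (pow_mem au 2))
    · exact V.mul_mem _ _ (V.mul_mem _ _ a2 hY) hw
    · exact V.add_mem _ _ (sub_mem (V.mul_mem _ _ a3 (pow_mem hX 2))
        (V.mul_mem _ _ (V.mul_mem _ _ a2 (V.add_mem _ _ V.one_mem al)) hX)) al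
  have hinv : ((1 - P.X * u) ^ 2)⁻¹ ∈ V := by
    have := (hd.pow 2).inv (pow_ne_zero 2 one_ne_zero)
    exact this.mem
  have hdiff : (P + Q).X - P.X ∈ V := by
    have : (P + Q).X - P.X = (((P + Q).X - P.X) * (1 - P.X * u) ^ 2) * ((1 - P.X * u) ^ 2)⁻¹ := by
      rw [mul_assoc, mul_inv_cancel₀ (pow_ne_zero 2 hd0), mul_one]
    rw [this, hform]
    exact V.mul_mem _ _ hmem hinv
  have := V.add_mem _ _ hdiff hX
  rwa [sub_add_cancel] at this

theorem red_add_case3 (hl' : Good l') (hll : Rd V φ l l') {P Q : Pt F l} (hP : P ≠ 0)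
    (hQ : Q ≠ 0) (hX : P.X ∈ V) (hX' : Q.X ∉ V) : red V φ l l' (P + Q) = red V φ l l' P := by
  obtain ⟨h1, h2⟩ := mem_of_mem_not_mem (φ := φ) hl' hll hP hQ hX hX'
  by_contra hne
  have h3 : red V φ l l' (P + Q) + red V φ l l' (-P) ≠ 0 := by
    rw [red_neg V φ hl' hll]
    intro h
    exact hne (add_neg_eq_zero.1 h)
  obtain ⟨_, h4, _⟩ := red_add_case1 hl' hll h1 (neg_ne_zero.2 hP) h2 (by rw [X_neg]; exact hX) h3
  rw [show P + Q + -P = Q by abel] at h4
  exact hX' h4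

end add

theorem red_add [IsLocalHom φ] (hl' : Good l') (hll : ∃ h : l ∈ V, φ ⟨l, h⟩ = l') (P Q : Pt F l) :
    red V φ l l' (P + Q) = red V φ l l' P + red V φ l l' Q := by
  by_cases hP : P = 0
  · rw [hP, zero_add, red_zero, zero_add]
  by_cases hQ : Q = 0
  · rw [hQ, add_zero, red_zero, add_zero]
  by_cases hX : P.X ∈ V
  · by_cases hX' : Q.X ∈ V
    · by_cases hne : red V φ l l' P + red V φ l l' Q = 0
      · rw [hne, red_add_case2 hl' hll hP hQ hX hX' hne]
      · exact (red_add_case1 hl' hll hP hQ hX hX' hne).2.2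
    · rw [red_add_case3 hl' hll hP hQ hX hX', red_eq_zero V φ hX', add_zero]
  · by_cases hX' : Q.X ∈ V
    · rw [add_comm P Q, red_add_case3 hl' hll hQ hP hX' hX, red_eq_zero V φ hX, zero_add]
    · rw [red_eq_zero V φ hX, red_eq_zero V φ hX', add_zero]
      by_cases hPQ : P + Q = 0
      · rw [hPQ, red_zero]
      · apply red_eq_zero
        intro h3
        have h4 := red_add_case3 hl' hll hPQ (neg_ne_zero.2 hQ) h3 (by rw [X_neg]; exact hX')
        rw [show P + Q + -Q = P by abel, red_eq_zero V φ hX] at h4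
        exact (red_rd V φ hl' hll hPQ h3).1 h4.symm

/-- the reduction homomorphism -/
noncomputable def redHom [IsLocalHom φ] (hl' : Good l') (hll : ∃ h : l ∈ V, φ ⟨l, h⟩ = l') :
    Pt F l →+ Pt κ l' where
  toFun := red V φ l l'
  map_zero' := red_zero V φ
  map_add' := red_add V φ hl' hll

end H68.BB
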