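import Pool.Agent.H68.BB.Def

/-! # BB.Plc : existence of places of the closure of `k(t)` (about 100 lines)

`Place.isLocal`: `φ` is surjective (`const`) onto a field, so its kernel is a maximal ideal of the local ring `V`.
`place_exists`: `A` = the image of `k[X] → Ω` (`X ↦ tt`, injective), `I` = the ideal generated by `tt - u`, proper (evaluation at `u`).
`Ideal.image_subset_nonunits_valuationSubring` (or `LocalSubring.exists_le_valuationSubring`) gives a valuation subring `B ⊇ A` with `tt - u` a nonunit.  Every `b ∈ B` is
congruent to a constant modulo the maximal ideal: `b` is algebraic over `k(t)`, so there is a nonzero polynomial `G(X, Y)` over `k` with `G(tt, b) = 0`; divide by the highest power of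
`X - u` dividing all coefficients; then `G(u, Y) ≠ 0`, it splits over `k`, and modulo the maximal ideal `G(u, b) = 0`, so one of the factors `b - c` is in the
maximal ideal.  The constant is unique; `φ b = c` is a ring homomorphism (e.g. the residue field `B / m` is then the image of `k`: compose the quotient map with the inverse of the
bijective `k → B / m`). -/

namespace H68.BB

open Polynomial

/-- the variable `t` in `Ω` -/
noncomputable def tt (k : Type) [Field k] : Om k := algebraMap (RatFunc k) (Om k) RatFunc.X

private theorem plc_algMap_X (k : Type) [Field k] : algebraMap k[X] (Om k) X = tt k := by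
  rw [IsScalarTower.algebraMap_apply k[X] (RatFunc k) (Om k), RatFunc.algebraMap_X]
  rfl

private theorem plc_algMap_C (k : Type) [Field k] (c : k) : algebraMap k[X] (Om k) (C c) = cst c := by
  rw [IsScalarTower.algebraMap_apply k[X] (RatFunc k) (Om k), RatFunc.algebraMap_C]
  change _ = algebraMap k (Om k) c
  rw [IsScalarTower.algebraMap_apply k (RatFunc k) (Om k)]
  rfl

private theorem plc_algMap_inj (k : Type) [Field k] : Function.Injective (algebraMap k[X] (Om k)) := by
  rw [IsScalarTower.algebraMap_eq k[X] (RatFunc k) (Om k)]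
  exact (algebraMap (RatFunc k) (Om k)).injective.comp (RatFunc.algebraMap_injective k)

theorem tt_ne (k : Type) [Field k] (c : k) : tt k ≠ cst c := by
  intro h
  rw [← plc_algMap_X, ← plc_algMap_C] at h
  exact X_ne_C c (plc_algMap_inj k h)

theorem Place.isLocal {k Ω : Type} [Field k] [Field Ω] [Algebra k Ω] (π : Place k Ω) :
    IsLocalHom π.φ := by
  have hsurj : Function.Surjective π.φ := fun c => by
    obtain ⟨h, hc⟩ := π.const c
    exact ⟨_, hc⟩
  have hmax : (RingHom.ker π.φ).IsMaximal := RingHom.ker_isMaximal_of_surjective π.φ hsurj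
  have hk := IsLocalRing.eq_maximalIdeal hmax
  refine ⟨fun a ha => ?_⟩
  by_contra hna
  have h1 : a ∈ IsLocalRing.maximalIdeal π.V := (IsLocalRing.mem_maximalIdeal a).mpr hna
  rw [← hk, RingHom.mem_ker] at h1
  exact ha.ne_zero h1

/-- a place with `t ↦ u` -/
theorem place_exists (k : Type) [Field k] [IsAlgClosed k] (u : k) :
    ∃ π : Place k (Om k), ∃ h : tt k ∈ π.V, π.φ ⟨tt k, h⟩ = u := by
  classical
  let f : k[X] →+* Om k := algebraMap k[X] (Om k)
  have hf : Function.Injective f := plc_algMap_inj k
  let e : k[X] ≃+* f.range := RingEquiv.ofBijective f.rangeRestrict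
    ⟨fun a b hab => hf (congrArg Subtype.val hab), f.rangeRestrict_surjective⟩
  let I : Ideal f.range := Ideal.comap (e.symm : f.range →+* k[X]) (Ideal.span {X - C u})
  have hI : I ≠ ⊤ := by
    refine Ideal.comap_ne_top _ ?_
    rw [Ne, Ideal.span_singleton_eq_top]
    exact not_isUnit_X_sub_C u
  obtain ⟨B, hAB, hIB⟩ := Ideal.image_subset_nonunits_valuationSubring I hI
  have hmem : ∀ p : k[X], f p ∈ B := fun p => hAB ⟨p, rfl⟩
  have hcst : ∀ c : k, cst c ∈ B := fun c => by
    rw [← plc_algMap_C]
    exact hmem (C c)
  have htt : tt k ∈ B := by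
    rw [← plc_algMap_X]
    exact hmem X
  let fB : k[X] →+* B := f.codRestrict B.toSubring hmem
  let κ := IsLocalRing.ResidueField B
  let r : B →+* κ := IsLocalRing.residue B
  have hXu : r (fB (X - C u)) = 0 := by
    change IsLocalRing.residue B _ = 0
    rw [IsLocalRing.residue_eq_zero_iff]
    have h1 : f (X - C u) ∈ (B.nonunits : Set (Om k)) := by
      apply hIB
      refine ⟨e (X - C u), ?_, rfl⟩
      change e (X - C u) ∈ Ideal.comap _ _
      rw [Ideal.mem_comap]
      change e.symm (e (X - C u)) ∈ _
      rw [RingEquiv.symm_apply_apply]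
      exact Ideal.mem_span_singleton_self _
    obtain ⟨ha, h2⟩ := ValuationSubring.mem_nonunits_iff_exists_mem_maximalIdeal.mp h1
    exact h2
  let ι : k →+* κ := (r.comp fB).comp C
  -- evaluation of polynomials in the residue field
  have hev : ∀ p : k[X], r (fB p) = ι (p.eval u) := by
    intro p
    have h1 : X - C u ∣ p - C (p.eval u) := by
      rw [dvd_iff_isRoot]
      simp
    obtain ⟨q, hq⟩ := h1
    have h2 : p = (X - C u) * q + C (p.eval u) := by rw [← hq]; ring
    calc r (fB p) = r (fB ((X - C u) * q + C (p.eval u))) := by rw [← h2]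
      _ = r (fB (X - C u)) * r (fB q) + r (fB (C (p.eval u))) := by
          rw [map_add, map_mul, map_add, map_mul]
      _ = ι (p.eval u) := by
          rw [hXu, zero_mul, zero_add]
          rfl
  have hint : ι.IsIntegral := by
    intro b'
    obtain ⟨b, rfl⟩ := IsLocalRing.residue_surjective b'
    have hb : IsAlgebraic k[X] (b : Om k) :=
      (IsFractionRing.isAlgebraic_iff k[X] (RatFunc k) (Om k)).mpr
        (Algebra.IsAlgebraic.isAlgebraic _)
    obtain ⟨G, hG, hGb⟩ := hb
    have hirr : Irreducible (C (X - C u) : k[X][X]) :=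
      (Polynomial.prime_C_iff.mpr (prime_X_sub_C u)).irreducible
    obtain ⟨n, G', hnd, hGG⟩ := WfDvdMonoid.max_power_factor hG hirr
    have hG'b : aeval (b : Om k) G' = 0 := by
      rw [hGG, map_mul, map_pow, aeval_C, mul_eq_zero] at hGb
      rcases hGb with h | h
      · exfalso
        have h3 := eq_zero_of_pow_eq_zero h
        exact X_sub_C_ne_zero u (hf (h3.trans (map_zero f).symm))
      · exact h
    have hne : G'.map (evalRingHom u) ≠ 0 := by
      intro h0
      apply hnd
      rw [C_dvd_iff_dvd_coeff]
      intro i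
      rw [dvd_iff_isRoot]
      have h4 := congrArg (fun q => q.coeff i) h0
      simpa [coeff_map] using h4
    have hev2 : eval₂ (r.comp fB) (r b) G' = 0 := by
      have h5 : eval₂ fB b G' = 0 := by
        apply Subtype.val_injective
        have h6 : ((eval₂ fB b G' : B) : Om k) = eval₂ (B.subtype.comp fB) (B.subtype b) G' := by
          rw [← hom_eval₂]
          rfl
        rw [h6]
        exact hG'b
      rw [← hom_eval₂, h5, map_zero]
    have hcomp : r.comp fB = ι.comp (evalRingHom u) :=
      RingHom.ext fun p => hev p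
    have hev3 : eval₂ ι (r b) (G'.map (evalRingHom u)) = 0 := by
      rw [eval₂_map, ← hcomp]
      exact hev2
    let _ : Algebra k κ := ι.toAlgebra
    have halg : IsAlgebraic k (r b) := ⟨G'.map (evalRingHom u), hne, hev3⟩
    exact halg.isIntegral
  have hbij := IsAlgClosed.ringHom_bijective_of_isIntegral ι hint
  let E : k ≃+* κ := RingEquiv.ofBijective ι hbij
  have hE : ∀ c, E.symm (ι c) = c := fun c => E.symm_apply_apply c
  refine ⟨⟨B, (E.symm : κ →+* k).comp r, fun c => ⟨hcst c, ?_⟩⟩, htt, ?_⟩
  · change E.symm (r ⟨cst c, _⟩) = c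
    have h7 : (⟨cst c, hcst c⟩ : B) = fB (C c) := Subtype.ext (plc_algMap_C k c).symm
    rw [h7, hev, eval_C, hE]
  · change E.symm (r ⟨tt k, _⟩) = u
    have h7 : (⟨tt k, htt⟩ : B) = fB X := Subtype.ext (plc_algMap_X k).symm
    rw [h7, hev, eval_X, hE]

end H68.BB
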