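import Pool.Agent.H68.BB.Leg

/-! # BB.Def : reduction of points and zero-cycles on a product of two Legendre curves (definitions, no sorry) -/

namespace H68.BB

open WeierstrassCurve

open Classical in
/-- reduction of points: for a valuation subring `V` of `F` and a ring homomorphism `φ : V → κ`, the point
`(x, y)` is sent to `(φ x, φ y)` if `x` and `y` are in `V` (and this is a nonsingular point of the curve with
parameter `l'`, which holds if `φ l = l'` is not `0, 1` and `2 ≠ 0` in `κ`), and to the point at infinity
otherwise -/
noncomputable def red {F κ : Type} [Field F] [Field κ] (V : ValuationSubring F) (φ : V →+* κ) (l : F)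
    (l' : κ) (P : Pt F l) : Pt κ l' :=
  if h : P ≠ 0 ∧ ∃ (hx : P.X ∈ V) (hy : P.Y ∈ V),
      (Leg l').toAffine.Nonsingular (φ ⟨P.X, hx⟩) (φ ⟨P.Y, hy⟩) then
    Pt.mk (φ ⟨P.X, h.2.choose⟩) (φ ⟨P.Y, h.2.choose_spec.choose⟩) h.2.choose_spec.choose_spec
  else 0

/-- a `k`-rational place of the extension field `Ω` of `k`: a valuation subring of `Ω` which contains `k`,
with a ring homomorphism to `k` which is the identity on `k` -/
structure Place (k Ω : Type) [Field k] [Field Ω] [Algebra k Ω] where
  V : ValuationSubring Ω
  φ : V →+* k
  const : ∀ c : k, ∃ h : algebraMap k Ω c ∈ V, φ ⟨algebraMap k Ω c, h⟩ = c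

section cycles
variable (k : Type) [Field k]

/-- an algebraic closure of the rational function field `k(t)`, the function field of the projective line -/
abbrev Om : Type := AlgebraicClosure (RatFunc k)

variable {k}

/-- the constant `c` of `k` in `Ω` -/
noncomputable abbrev cst (c : k) : Om k := algebraMap k (Om k) c

/-- specialisation of a point of the (constant) curve over `Ω` at a place -/
noncomputable def sp (π : Place k (Om k)) (l : k) (P : Pt (Om k) (cst l)) : Pt k l :=
  red π.V π.φ (cst l) l P

/-- a finite multiset of points of `E_l × E_m` over `Ω` which is stable under all automorphisms of `Ω` over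
`k(t)`: the generic fibre of an effective 1-cycle of `ℙ¹ × E_l × E_m` all of whose components dominate `ℙ¹` -/
def GalStable {l m : k} (S : Multiset (Pt (Om k) (cst l) × Pt (Om k) (cst m))) : Prop :=
  ∀ σ : Om k ≃ₐ[RatFunc k] Om k,
    S.map (fun s => (Pt.map (σ : Om k →+* Om k) (cst l) (cst l) s.1,
      Pt.map (σ : Om k →+* Om k) (cst m) (cst m) s.2)) = S

/-- zero-cycles on `E_l × E_m` over `k` -/
abbrev Cyc (l m : k) : Type := (Pt k l × Pt k m) →₀ ℤ

/-- the zero-cycle given by one point -/
noncomputable def pt {l m : k} (P : Pt k l) (Q : Pt k m) : Cyc l m := Finsupp.single (P, Q) 1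

/-- specialisation of a multiset of points: the fibre of the 1-cycle over the point of `ℙ¹` below the place -/
noncomputable def fib {l m : k} (S : Multiset (Pt (Om k) (cst l) × Pt (Om k) (cst m)))
    (π : Place k (Om k)) : Cyc l m :=
  (S.map (fun s => pt (sp π l s.1) (sp π m s.2))).sum

/-- rational equivalence to zero of zero-cycles on `E_l × E_m`: the subgroup generated by the differences of
two fibres over `ℙ¹` of effective 1-cycles of `ℙ¹ × E_l × E_m` which are dominant over `ℙ¹` -/
noncomputable def RatEq (l m : k) : AddSubgroup (Cyc l m) :=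
  AddSubgroup.closure {z | ∃ (S : Multiset (Pt (Om k) (cst l) × Pt (Om k) (cst m)))
    (π π' : Place k (Om k)), GalStable S ∧ z = fib S π - fib S π'}

/-- the zero-cycle `(P, Q) - (P, O) - (O, Q) + (O, O)` (degree zero, and zero in the Albanese variety) -/
noncomputable def zc {l m : k} (P : Pt k l) (Q : Pt k m) : Cyc l m :=
  pt P Q - pt P 0 - pt 0 Q + pt 0 0

end cycles

end H68.BB
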