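import Mathlib

/-! # BB.Leg : Legendre curves and their points over arbitrary fields (complete, no sorry)

`Leg l` is `y^2 = x (x - 1) (x - l)`.  `Pt F l` are its points over the field `F` (Mathlib's group of
nonsingular points).  `X P`, `Y P` are the affine coordinates (`0` for the point at infinity `0`). -/

namespace H68.BB

open WeierstrassCurve

/-- the Legendre curve `y^2 = x (x - 1) (x - l)` -/
def Leg {F : Type} [Field F] (l : F) : WeierstrassCurve F := ⟨0, -(1 + l), 0, l, 0⟩

/-- the points of the Legendre curve over `F`, point at infinity included -/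
def Pt (F : Type) [Field F] (l : F) : Type := (Leg l).toAffine.Point

/-- the usual group law on the points (Mathlib) -/
noncomputable instance instGroupPt (F : Type) [Field F] (l : F) : AddCommGroup (Pt F l) := by
  classical exact inferInstanceAs (AddCommGroup (Leg l).toAffine.Point)

/-- the affine point `(x, y)` -/
def Pt.mk {F : Type} [Field F] {l : F} (x y : F) (h : (Leg l).toAffine.Nonsingular x y) : Pt F l :=
  Affine.Point.some x y h

/-- `l` gives an elliptic curve -/
structure Good {F : Type} [Field F] (l : F) : Prop where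
  two : (2 : F) ≠ 0
  zero : l ≠ 0
  one : l ≠ 1

/-- the `x`-coordinate (`0` for the point at infinity) -/
noncomputable def Pt.X {F : Type} [Field F] {l : F} (P : Pt F l) : F :=
  match P with
  | Affine.Point.zero => 0
  | Affine.Point.some x _ _ => x

/-- the `y`-coordinate (`0` for the point at infinity) -/
noncomputable def Pt.Y {F : Type} [Field F] {l : F} (P : Pt F l) : F :=
  match P with
  | Affine.Point.zero => 0
  | Affine.Point.some _ y _ => y

section basic
variable {F : Type} [Field F] {l : F}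

theorem eqn_iff {x y : F} : (Leg l).toAffine.Equation x y ↔ y ^ 2 = x * (x - 1) * (x - l) := by
  rw [Affine.equation_iff]
  simp only [Leg]
  constructor <;> intro h <;> linear_combination h

theorem negY_eq (x y : F) : (Leg l).toAffine.negY x y = -y := by
  simp [Affine.negY, Leg]

theorem ns_iff (hl : Good l) {x y : F} :
    (Leg l).toAffine.Nonsingular x y ↔ y ^ 2 = x * (x - 1) * (x - l) := by
  rw [Affine.nonsingular_iff, eqn_iff]
  constructor
  · exact fun h => h.1
  · intro h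
    refine ⟨h, ?_⟩
    simp only [Leg]
    by_contra hcon
    push Not at hcon
    obtain ⟨h1, h2⟩ := hcon
    have hy : y = 0 := by
      have : 2 * y = 0 := by linear_combination h2
      rcases mul_eq_zero.1 this with h | h
      · exact absurd h hl.two
      · exact h
    subst hy
    have h3 : x * (x - 1) * (x - l) = 0 := by rw [← h]; ring
    have h4 : 3 * x ^ 2 - 2 * (1 + l) * x + l = 0 := by linear_combination -h1
    rcases mul_eq_zero.1 h3 with h3 | h3
    · rcases mul_eq_zero.1 h3 with h3 | h3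
      · rw [h3] at h4; exact hl.zero (by linear_combination h4)
      · have : x = 1 := by linear_combination h3
        rw [this] at h4; exact hl.one (by linear_combination -h4)
    · have : x = l := by linear_combination h3
      rw [this] at h4
      have h5 : l * (l - 1) = 0 := by linear_combination h4
      rcases mul_eq_zero.1 h5 with h5 | h5
      · exact hl.zero h5
      · exact hl.one (by linear_combination h5)

theorem Pt.cases (P : Pt F l) : P = 0 ∨ ∃ x y h, P = Pt.mk x y h := by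
  rcases P with _ | ⟨x, y, h⟩
  · exact Or.inl rfl
  · exact Or.inr ⟨x, y, h, rfl⟩

theorem mk_ne_zero {x y : F} (h : (Leg l).toAffine.Nonsingular x y) : Pt.mk x y h ≠ 0 :=
  Affine.Point.some_ne_zero h

theorem X_mk {x y : F} (h : (Leg l).toAffine.Nonsingular x y) : (Pt.mk x y h).X = x := rfl
theorem Y_mk {x y : F} (h : (Leg l).toAffine.Nonsingular x y) : (Pt.mk x y h).Y = y := rfl
theorem X_zero : (0 : Pt F l).X = 0 := rfl
theorem Y_zero : (0 : Pt F l).Y = 0 := rfl

theorem ns_of_ne {P : Pt F l} (hP : P ≠ 0) : (Leg l).toAffine.Nonsingular P.X P.Y := by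
  rcases P.cases with h | ⟨x, y, h, rfl⟩
  · exact absurd h hP
  · exact h

theorem eq_mk {P : Pt F l} (hP : P ≠ 0) : P = Pt.mk P.X P.Y (ns_of_ne hP) := by
  rcases P.cases with h | ⟨x, y, h, rfl⟩
  · exact absurd h hP
  · rfl

/-- the equation of the curve -/
theorem Y_sq (P : Pt F l) : P.Y ^ 2 = P.X * (P.X - 1) * (P.X - l) := by
  by_cases hP : P = 0
  · rw [hP, X_zero, Y_zero]; ring
  · exact eqn_iff.1 (ns_of_ne hP).1

theorem ext_XY {P Q : Pt F l} (hP : P ≠ 0) (hQ : Q ≠ 0) (hX : P.X = Q.X) (hY : P.Y = Q.Y) :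
    P = Q := by
  rcases P.cases with h | ⟨x, y, h, rfl⟩
  · exact absurd h hP
  rcases Q.cases with h' | ⟨x', y', h', rfl⟩
  · exact absurd h' hQ
  simp only [X_mk, Y_mk] at hX hY
  subst hX; subst hY; rfl

theorem neg_mk {x y : F} (h : (Leg l).toAffine.Nonsingular x y) :
    ∃ h', -(Pt.mk x y h) = Pt.mk x (-y) h' := by
  have h1 : -(Pt.mk x y h) = Pt.mk x ((Leg l).toAffine.negY x y)
      ((Affine.nonsingular_neg ..).mpr h) := rfl
  have h2 : (Leg l).toAffine.Nonsingular x (-y) := by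
    rw [← negY_eq x y]; exact (Affine.nonsingular_neg ..).mpr h
  refine ⟨h2, ?_⟩
  rw [h1]
  exact ext_XY (mk_ne_zero _) (mk_ne_zero _) rfl (negY_eq x y)

theorem X_neg (P : Pt F l) : (-P).X = P.X := by
  rcases P.cases with h | ⟨x, y, h, rfl⟩
  · rw [h, neg_zero]
  · obtain ⟨h', h1⟩ := neg_mk h
    rw [h1, X_mk, X_mk]

theorem Y_neg (P : Pt F l) : (-P).Y = -P.Y := by
  rcases P.cases with h | ⟨x, y, h, rfl⟩
  · rw [h, neg_zero, Y_zero, neg_zero]
  · obtain ⟨h', h1⟩ := neg_mk h
    rw [h1, Y_mk, Y_mk]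

theorem eq_or_neg {P Q : Pt F l} (hP : P ≠ 0) (hQ : Q ≠ 0) (hX : P.X = Q.X) : P = Q ∨ P = -Q := by
  have h1 := Y_sq P
  have h2 := Y_sq Q
  rw [hX, ← h2] at h1
  rcases sq_eq_sq_iff_eq_or_eq_neg.1 h1 with h | h
  · exact Or.inl (ext_XY hP hQ hX h)
  · refine Or.inr (ext_XY hP (neg_ne_zero.2 hQ) ?_ ?_)
    · rw [X_neg, hX]
    · rw [Y_neg, h]

/-- a symmetric formula for the sum: the line `y = s x + v` meets the curve in `P`, `Q`, `-(P + Q)` -/
theorem add_line {P Q : Pt F l} (hP : P ≠ 0) (hQ : Q ≠ 0) (hPQ : P + Q ≠ 0) :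
    ∃ s v : F, P.Y = s * P.X + v ∧ Q.Y = s * Q.X + v ∧ (P + Q).Y = -(s * (P + Q).X + v) ∧
      P.X + Q.X + (P + Q).X = s ^ 2 + (1 + l) ∧
      P.X * Q.X + P.X * (P + Q).X + Q.X * (P + Q).X = l - 2 * s * v ∧
      P.X * Q.X * (P + Q).X = v ^ 2 ∧
      (P.X = Q.X → P.Y = Q.Y ∧ s * (2 * P.Y) = 3 * P.X ^ 2 - 2 * (1 + l) * P.X + l ∧
        2 * P.Y ≠ 0) := by
  classical
  rcases P.cases with h | ⟨x₁, y₁, h₁, rfl⟩
  · exact absurd h hP
  rcases Q.cases with h | ⟨x₂, y₂, h₂, rfl⟩
  · exact absurd h hQ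
  have hxy : ¬(x₁ = x₂ ∧ y₁ = (Leg l).toAffine.negY x₂ y₂) := by
    intro hxy
    apply hPQ
    exact Affine.Point.add_of_Y_eq (h₁ := h₁) (h₂ := h₂) hxy.1 hxy.2
  have hadd := Affine.Point.add_some hxy (h₁ := h₁) (h₂ := h₂)
  set s := (Leg l).toAffine.slope x₁ x₂ y₁ y₂ with hs
  have hadd' : Pt.mk x₁ y₁ h₁ + Pt.mk x₂ y₂ h₂ = Pt.mk ((Leg l).toAffine.addX x₁ x₂ s)
      ((Leg l).toAffine.addY x₁ x₂ y₁ s) (Affine.nonsingular_add h₁ h₂ hxy) := by
    exact hadd
  have hpol := Affine.addPolynomial_slope h₁.1 h₂.1 hxy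
  rw [← hs] at hpol
  -- y₂ on the line
  have hy2 : y₂ = s * x₂ + (y₁ - s * x₁) := by
    by_cases hx : x₁ = x₂
    · have hy : y₁ = y₂ := by
        rcases Affine.Y_eq_of_X_eq h₁.1 h₂.1 hx with h | h
        · exact h
        · exact absurd ⟨hx, h⟩ hxy
      rw [← hx, hy]; ring
    · rw [hs, Affine.slope_of_X_ne hx]
      have : x₁ - x₂ ≠ 0 := sub_ne_zero.2 hx
      field_simp
      ring
  have hX3 : (Pt.mk x₁ y₁ h₁ + Pt.mk x₂ y₂ h₂).X = s ^ 2 + (1 + l) - x₁ - x₂ := by
    rw [hadd', X_mk]; simp only [Affine.addX, Leg]; ring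
  have hY3 : (Pt.mk x₁ y₁ h₁ + Pt.mk x₂ y₂ h₂).Y =
      -(s * ((s ^ 2 + (1 + l) - x₁ - x₂) - x₁) + y₁) := by
    rw [hadd', Y_mk]; simp only [Affine.addY, Affine.negAddY, Affine.addX, Affine.negY, Leg]; ring
  rw [Affine.addPolynomial_eq] at hpol
  have hc1 := congrArg (fun q => Polynomial.eval 0 q) hpol
  have hc2 := congrArg (fun q => Polynomial.eval 1 q) hpol
  simp only [Leg, Cubic.toPoly, Affine.addX, Polynomial.eval_neg, Polynomial.eval_add,
    Polynomial.eval_mul, Polynomial.eval_C, Polynomial.eval_X, Polynomial.eval_pow,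
    Polynomial.eval_sub] at hc1 hc2
  refine ⟨s, y₁ - s * x₁, ?_, ?_, ?_, ?_, ?_, ?_, ?_⟩
  · rw [X_mk, Y_mk]; ring
  · rw [X_mk, Y_mk]; exact hy2
  · rw [hX3, hY3]; ring
  · rw [hX3, X_mk, X_mk]; ring
  · rw [hX3, X_mk, X_mk]; linear_combination hc2 - hc1
  · rw [hX3, X_mk, X_mk]; linear_combination -hc1
  · intro hx
    rw [X_mk, X_mk] at hx
    have hy : y₁ = y₂ := by
      rcases Affine.Y_eq_of_X_eq h₁.1 h₂.1 hx with h | h
      · exact h
      · exact absurd ⟨hx, h⟩ hxy
    have hne : y₁ ≠ (Leg l).toAffine.negY x₂ y₂ := fun h => hxy ⟨hx, h⟩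
    have hne' : 2 * y₁ ≠ 0 := by
      rw [negY_eq] at hne
      intro h
      apply hne
      rw [← hy]
      linear_combination h
    refine ⟨hy, ?_, hne'⟩
    rw [X_mk, Y_mk, hs, Affine.slope_of_Y_ne hx hne, negY_eq]
    simp only [Leg]
    have h2 : y₁ - -y₁ ≠ 0 := by intro h; apply hne'; linear_combination h
    rw [div_mul_eq_mul_div, div_eq_iff h2]
    ring

/-- `P + Q = 0` iff `Q = -P`, in coordinates -/
theorem add_ne_zero_of_X {P Q : Pt F l} (hX : P.X ≠ Q.X) : P + Q ≠ 0 := by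
  intro h
  have : P = -Q := eq_neg_of_add_eq_zero_left h
  apply hX
  rw [this, X_neg]

/-- the point with given coordinates -/
noncomputable def Pt.of (hl : Good l) (x y : F) (h : y ^ 2 = x * (x - 1) * (x - l)) : Pt F l :=
  Pt.mk x y ((ns_iff hl).2 h)

theorem of_ne_zero (hl : Good l) {x y : F} (h : y ^ 2 = x * (x - 1) * (x - l)) :
    Pt.of hl x y h ≠ 0 := mk_ne_zero _

theorem X_of (hl : Good l) {x y : F} (h : y ^ 2 = x * (x - 1) * (x - l)) :
    (Pt.of hl x y h).X = x := rfl
theorem Y_of (hl : Good l) {x y : F} (h : y ^ 2 = x * (x - 1) * (x - l)) :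
    (Pt.of hl x y h).Y = y := rfl

theorem of_zero_y_two (hl : Good l) {x : F} (h : (0 : F) ^ 2 = x * (x - 1) * (x - l)) :
    Pt.of hl x 0 h + Pt.of hl x 0 h = 0 := by
  have : Pt.of hl x 0 h = -Pt.of hl x 0 h := by
    refine ext_XY (of_ne_zero _ _) (neg_ne_zero.2 (of_ne_zero _ _)) ?_ ?_
    · rw [X_neg]
    · rw [Y_neg, Y_of, neg_zero]
  nth_rewrite 2 [this]
  exact add_neg_cancel _

end basic

/-! ## the map of points induced by a ring homomorphism -/

section map
variable {F F' : Type} [Field F] [Field F'] {l : F} {l' : F'}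

open Classical in
/-- the map `(x, y) ↦ (f x, f y)` on points, for a ring homomorphism `f` with `f l = l'` -/
noncomputable def Pt.map (f : F →+* F') (l : F) (l' : F') (P : Pt F l) : Pt F' l' :=
  if h : P ≠ 0 ∧ (Leg l').toAffine.Nonsingular (f P.X) (f P.Y) then Pt.mk (f P.X) (f P.Y) h.2 else 0

theorem ns_map (f : F →+* F') (hf : f l = l') {x y : F} :
    (Leg l').toAffine.Nonsingular (f x) (f y) ↔ (Leg l).toAffine.Nonsingular x y := by
  have h1 : Leg l' = (Leg l).map f := by
    subst hf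
    simp [Leg, WeierstrassCurve.map]
  rw [h1]
  exact Affine.map_nonsingular _ f.injective x y

theorem ptmap_zero (f : F →+* F') : Pt.map f l l' 0 = 0 := by
  unfold Pt.map
  rw [dif_neg]
  intro h
  exact h.1 rfl

theorem ptmap_ne_zero (f : F →+* F') (hf : f l = l') {P : Pt F l} (hP : P ≠ 0) :
    Pt.map f l l' P ≠ 0 := by
  unfold Pt.map
  rw [dif_pos ⟨hP, (ns_map f hf).2 (ns_of_ne hP)⟩]
  exact mk_ne_zero _

theorem X_map (f : F →+* F') (hf : f l = l') (P : Pt F l) : (Pt.map f l l' P).X = f P.X := by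
  by_cases hP : P = 0
  · rw [hP, ptmap_zero, X_zero, X_zero, map_zero]
  · unfold Pt.map
    rw [dif_pos ⟨hP, (ns_map f hf).2 (ns_of_ne hP)⟩, X_mk]

theorem Y_map (f : F →+* F') (hf : f l = l') (P : Pt F l) : (Pt.map f l l' P).Y = f P.Y := by
  by_cases hP : P = 0
  · rw [hP, ptmap_zero, Y_zero, Y_zero, map_zero]
  · unfold Pt.map
    rw [dif_pos ⟨hP, (ns_map f hf).2 (ns_of_ne hP)⟩, Y_mk]

theorem ptmap_eq_zero (f : F →+* F') (hf : f l = l') {P : Pt F l} :
    Pt.map f l l' P = 0 ↔ P = 0 := by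
  constructor
  · intro h
    by_contra hP
    exact ptmap_ne_zero f hf hP h
  · rintro rfl; exact ptmap_zero f

theorem ptmap_neg (f : F →+* F') (hf : f l = l') (P : Pt F l) :
    Pt.map f l l' (-P) = -Pt.map f l l' P := by
  by_cases hP : P = 0
  · rw [hP, neg_zero, ptmap_zero, neg_zero]
  · refine ext_XY (ptmap_ne_zero f hf (neg_ne_zero.2 hP)) (neg_ne_zero.2 (ptmap_ne_zero f hf hP)) ?_ ?_
    · rw [X_neg, X_map f hf, X_map f hf, X_neg]
    · rw [Y_neg, Y_map f hf, Y_map f hf, Y_neg, map_neg]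

theorem ptmap_add (f : F →+* F') (hf : f l = l') (P Q : Pt F l) :
    Pt.map f l l' (P + Q) = Pt.map f l l' P + Pt.map f l l' Q := by
  by_cases hP : P = 0
  · rw [hP, zero_add, ptmap_zero, zero_add]
  by_cases hQ : Q = 0
  · rw [hQ, add_zero, ptmap_zero, add_zero]
  by_cases hPQ : P + Q = 0
  · have : Q = -P := eq_neg_of_add_eq_zero_right hPQ
    rw [hPQ, this, ptmap_neg f hf, ptmap_zero, add_neg_cancel]
  have hP' := ptmap_ne_zero f hf hP
  have hQ' := ptmap_ne_zero f hf hQ
  have hPQ' := ptmap_ne_zero f hf hPQ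
  have hne : Pt.map f l l' P + Pt.map f l l' Q ≠ 0 := by
    intro h
    have h1 : Pt.map f l l' P = -Pt.map f l l' Q := eq_neg_of_add_eq_zero_left h
    apply hPQ
    have h2 : P = -Q := by
      refine ext_XY hP (neg_ne_zero.2 hQ) ?_ ?_
      · apply f.injective
        rw [← X_map f hf, h1, X_neg, X_neg, X_map f hf]
      · apply f.injective
        rw [← Y_map f hf, h1, Y_neg, Y_neg, Y_map f hf, map_neg]
    rw [h2, neg_add_cancel]
  obtain ⟨s, v, h1, h2, h3, h4, h5, h6, h7⟩ := add_line hP hQ hPQ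
  obtain ⟨s', v', h1', h2', h3', h4', h5', h6', h7'⟩ := add_line hP' hQ' hne
  simp only [X_map f hf, Y_map f hf] at h1' h2' h4' h5' h6' h7'
  have hs : s' = f s := by
    by_cases hX : P.X = Q.X
    · obtain ⟨h8, h9, h10⟩ := h7 hX
      obtain ⟨h8', h9', h10'⟩ := h7' (by rw [hX])
      have h11 := congrArg f h9
      simp only [map_mul, map_add, map_sub, map_pow, map_ofNat, map_one, hf]
        at h11
      exact mul_right_cancel₀ h10' (h9'.trans h11.symm)
    · have h12 : f P.X - f Q.X ≠ 0 := by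
        rw [← map_sub]; exact (map_ne_zero_iff f f.injective).2 (sub_ne_zero.2 hX)
      apply mul_right_cancel₀ h12
      have h13 := congrArg f h1
      have h14 := congrArg f h2
      simp only [map_mul, map_add] at h13 h14
      linear_combination (h13 - h14) - (h1' - h2')
  have hv : v' = f v := by
    have h13 := congrArg f h1
    simp only [map_mul, map_add] at h13
    rw [hs] at h1'
    linear_combination h13 - h1'
  have hX : (Pt.map f l l' P + Pt.map f l l' Q).X = f (P + Q).X := by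
    have h15 := congrArg f h4
    simp only [map_add, map_pow, map_one, hf] at h15
    rw [hs] at h4'
    linear_combination h4' - h15
  refine ext_XY hPQ' hne ?_ ?_
  · rw [hX, X_map f hf]
  · rw [Y_map f hf, h3', h3, hX, hs, hv]
    simp only [map_neg, map_add, map_mul]

/-- the map on points as a group homomorphism -/
noncomputable def Pt.mapHom (f : F →+* F') (hf : f l = l') : Pt F l →+ Pt F' l' where
  toFun := Pt.map f l l'
  map_zero' := ptmap_zero f
  map_add' := ptmap_add f hf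

theorem ptmap_injective (f : F →+* F') (hf : f l = l') : Function.Injective (Pt.map f l l') := by
  intro P Q h
  have h1 : Pt.mapHom f hf P = Pt.mapHom f hf Q := h
  rw [← sub_eq_zero, ← map_sub] at h1
  exact sub_eq_zero.1 ((ptmap_eq_zero f hf).1 h1)

theorem ptmap_nsmul (f : F →+* F') (hf : f l = l') (n : ℕ) (P : Pt F l) :
    Pt.map f l l' (n • P) = n • Pt.map f l l' P :=
  map_nsmul (Pt.mapHom f hf) n P

end map

end H68.BB
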